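import Pool.Agent.H22.ARB.Fin
import Pool.Agent.H22.ARB.Grow
import Pool.Agent.H22.ARB.Edm
import Pool.Agent.H22.ARB.Iso
import Pool.Agent.H22.ARB.Comp
import Pool.Agent.H22.ARB.Pack
import Pool.Agent.H22.ARB.FracFrank
import Pool.Agent.H22.ARB.Cycle
import Pool.Agent.H22.ARB.Cls
import Pool.Agent.H22.ARB.Round
import Pool.Agent.H22.ARB.Size
import Pool.Agent.H22.ARB.Exact
import Pool.Agent.H22.ARB.Hak
import Pool.Agent.H22.ARB.KZero
import Pool.Agent.H22.ARB.KOne
import Pool.Agent.H22.ARB.DTwo

/-!
MP_1cda34_co (Q1, fractional packing of mixed arborescences).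

Let `H` be a mixed graph with at least two vertices that satisfies the condition of Q1.  Then `H`
contains `k` spanning mixed arborescences and a mixed branching `F`, pairwise edge- and
arc-disjoint, with more than `(d - 1) / d * (|V| - 1)` elements in `F`; and this can be done with
the component condition of Q1 if `k = 0`, or `d ≤ 2`, or `d` divides `|V| - 1`, or
`|V| ≤ d + 1`, or `k = 1` and `d` divides `|V| - 2`.
-/

set_option autoImplicit false

namespace Pool.Agent.Results.MP_1cda34_co.MixedPacking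

open ARB Finset

theorem result (V I : Type) [Fintype V] [DecidableEq V] [Fintype I] [DecidableEq I]
    (H : MixedGraph V I) (k d : ℕ) (hd : 1 ≤ d) (hV : 2 ≤ Fintype.card V)
    (hH : StrictCond H k d) :
    ∃ (T : Fin k → Finset I) (F : Finset I), IsPacking H T F ∧ SizeCond V F d ∧
      ((k = 0 ∨ d ≤ 2 ∨ d ∣ Fintype.card V - 1 ∨ Fintype.card V ≤ d + 1 ∨
        (k = 1 ∧ d ∣ Fintype.card V - 2)) → CompCond H F d) :=
  have hE : SEdm := sEdm sGrow
  have hS : SSize := sSize sA1 (sA3 sLA sCls) hE
  sFin hS (sExact hS) sComp (sPackT hE sComp) (sK0 sComp) (sK1 (sIso sGrow) (sMove sHak))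
    (sD2 (sMove sHak)) V I H k d hd hV hH

end Pool.Agent.Results.MP_1cda34_co.MixedPacking
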