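import Pool.Agent.H22.ARB.Fin
import Pool.Agent.H22.ARB.Grow
import Pool.Agent.H22.ARB.Edm
import Pool.Agent.H22.ARB.Comp
import Pool.Agent.H22.ARB.Pack
import Pool.Agent.H22.ARB.FracFrank
import Pool.Agent.H22.ARB.Cycle
import Pool.Agent.H22.ARB.Cls
import Pool.Agent.H22.ARB.Round
import Pool.Agent.H22.ARB.Size
import Pool.Agent.H22.ARB.Hak
import Pool.Agent.H46.ARB1.Cnt
import Pool.Agent.H46.ARB1.Core
import Pool.Agent.H46.ARB1.End
import Pool.Agent.H46.ARB1.Ent
import Pool.Agent.H46.ARB1.ExtA
import Pool.Agent.H46.ARB1.ExtB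
import Pool.Agent.H46.ARB1.L13
import Pool.Agent.H46.ARB1.L2
import Pool.Agent.H46.ARB1.Mv
import Pool.Agent.H46.ARB1.Nf
import Pool.Agent.H46.ARB1.Red
import Pool.Agent.H46.ARB1.Sf
import Pool.Agent.H46.ARB1.Disj
import Pool.Agent.H46.ARB1.Top
import Pool.Agent.H46.ARB1.Low

/-!
MP_1cda34_co (Q1, fractional packing of mixed arborescences), the case `k = 1`, all `d`.

Let `H` be a mixed graph with `n ≥ 2` vertices that satisfies the condition of Q1 for `k = 1`.
Then `H` has at least `2 (n - 1) - ⌊(n - 2) / d⌋` elements (edges and arcs).  If it has exactly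
that many, then the full conclusion of Q1 holds: `H` contains a spanning mixed arborescence and a
mixed branching `F`, edge- and arc-disjoint, with `|E(F)| + |A(F)| > (d - 1) / d * (n - 1)`, such
that some component of `F` has at least `d` elements unless `F` is a spanning mixed arborescence.
-/

set_option autoImplicit false

namespace Pool.Agent.Results.MP_1cda34_co.OneArborescence

open ARB ARB.KS Finset

theorem result (V I : Type) [Fintype V] [DecidableEq V] [Fintype I] [DecidableEq I]
    (H : MixedGraph V I) (d : ℕ) (hd : 1 ≤ d) (hV : 2 ≤ Fintype.card V)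
    (hH : StrictCond H 1 d) :
    2 * (Fintype.card V - 1) ≤ Fintype.card I + (Fintype.card V - 2) / d ∧
      (Fintype.card I + (Fintype.card V - 2) / d = 2 * (Fintype.card V - 1) →
        HasPacking H 1 d) := by
  have hE : SEdm := sEdm sGrow
  have hS : SSize := sSize sA1 (sA3 sLA sCls) hE
  have hMove : SMove := sMove sHak
  have hSp : SSplit := sSplit hE
  have hF2 : SF2 := sF2 hE sCnt
  have hMT : SMvT := sMvT hMove
  have hMF : SMvF := sMvF hMove
  have hNF : SNF1 := sNF1 hF2 hMT hMF
  have hExt : SExt := sExt hMT hMF hNF sY0 hF2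
  have hExtT : SExtT := sExtT hExt
  have hExtF : SExtF := sExtF hExt
  have hInit : SInit := sInit sBet hNF sY0 sY0c hExtT
  have hEnt : SEntry := sEntry hF2
  have hEsc : SEsc := sEsc hNF sY0 hEnt
  have hRed : SRed := sRed sBet hNF sY0 hExtT hEnt hEsc
  have hL3 : SL3 := sL3 hSp hNF hRed
  have hL1 : SL1 := sL1 hSp hL3 hRed
  have hCore : SCore := sCore hEnt hL3 hL1
  have hL2 : SL2 := sL2 hMove hSp hEsc hL3 hRed
  have hTerm : STerm := sTerm sY0 hEsc hL3 hL2
  have hDisj : SDisj := sDisj sBet hNF sY0 hExtF hEnt hEsc hL3 hTerm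
  have hEnd : SEnd := sEnd sY0c hInit sMin hCore hTerm hDisj
  exact ⟨low H d hd hV hH, fun hI => sTop hEnd hS sComp (sPackT hE sComp) V I H d hd hV hH hI.le⟩

end Pool.Agent.Results.MP_1cda34_co.OneArborescence
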